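import Pool.Agent.H1.MazA

namespace Pool.Agent.Results.MP_ae49d3_an.No

open Filter Topology Set MeasureTheory
open scoped RealInnerProductSpace

/-- Negative answer to Mazur's question: an orthogonal system of continuous functions on `[0,1]`,
closed in `C[0,1]`, and a continuous `f` whose expansion is uniformly summable to `f` by no matrix. -/
theorem result : ∃ φ : ℕ → C(unitInterval, ℝ), (∀ n, φ n ≠ 0) ∧
    (∀ m n, m ≠ n → ∫ t, φ m t * φ n t = 0) ∧
    Dense (Submodule.span ℝ (Set.range φ) : Set C(unitInterval, ℝ)) ∧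
    ∃ f : C(unitInterval, ℝ), ∀ (c : ℕ → ℕ → ℝ) (σ : ℕ → C(unitInterval, ℝ)),
      (∀ m, Tendsto (fun K => ∑ N ∈ Finset.range K, c m N • ∑ n ∈ Finset.range (N + 1),
        ((∫ t, f t * φ n t) / ∫ t, φ n t ^ 2) • φ n) atTop (𝓝 (σ m))) →
      ¬ Tendsto σ atTop (𝓝 f) := by
  have : (volume : Measure unitInterval).IsOpenPosMeasure := ⟨fun U hU ⟨x, hx⟩ => by
    obtain ⟨W, hW, rfl⟩ := isOpen_induced_iff.1 hU
    have h1 : x.1 ∈ closure (Ioo (0 : ℝ) 1) := by rw [closure_Ioo zero_ne_one]; exact x.2
    rw [unitInterval.volume_apply, Subtype.image_preimage_coe]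
    exact ((isOpen_Ioo.inter hW).measure_pos volume ((mem_closure_iff.1 h1 W hW hx).mono
      (inter_comm _ _).subset)).trans_le (measure_mono (inter_subset_inter_left _ Ioo_subset_Icc_self)) |>.ne'⟩
  have e : ∀ f g : C(unitInterval, ℝ), ⟪(ContinuousMap.toLp 2 volume ℝ).toLinearMap f,
      (ContinuousMap.toLp 2 volume ℝ).toLinearMap g⟫ = ∫ t, f t * g t := fun f g =>
    (ContinuousMap.inner_toLp volume f g).trans (by simp [mul_comm])
  obtain ⟨φ, h0, h1, h2, h3⟩ := H1.Maz.sys (T := (ContinuousMap.toLp 2 volume ℝ).toLinearMap)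
    (δ := (ContinuousMap.evalCLM ℝ (0 : unitInterval)).toLinearMap) (ContinuousMap.toLp_injective _)
    (fun M => by
      set s : C(unitInterval, ℝ) := ⟨fun t => 1 - t, by fun_prop⟩
      have t1 := tendsto_integral_of_dominated_convergence (μ := volume) (F := fun n t => (s ^ n) t * (s ^ n) t)
        (f := fun _ => 0) (fun _ => 1) (fun n => (s ^ n * s ^ n).continuous.aestronglyMeasurable)
        (integrable_const _) (fun n => .of_forall fun t => by
          simp only [s, ContinuousMap.pow_apply, ContinuousMap.coe_mk, ← pow_add, norm_pow]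
          exact pow_le_one₀ (norm_nonneg _) (abs_le.2 ⟨by linarith [t.2.2], by linarith [t.2.1]⟩))
        ((Measure.ae_ne volume 0).mono fun t ht => by
          have := tendsto_pow_atTop_nhds_zero_of_lt_one (r := 1 - t.1) (by linarith [t.2.2])
            (by linarith [t.2.1.lt_of_ne fun h => ht (Subtype.ext h.symm)])
          simpa [s] using this.mul this)
      simp only [← e, real_inner_self_eq_norm_sq, integral_zero] at t1
      have t2 := t1.sqrt.const_mul M
      simp only [Real.sqrt_sq (norm_nonneg _), Real.sqrt_zero, mul_zero] at t2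
      obtain ⟨n, hn⟩ := (t2.eventually (gt_mem_nhds one_pos)).exists
      exact ⟨s ^ n, by simpa [s] using hn⟩) 1
  refine ⟨φ, h0, fun m n h => (e _ _).symm.trans (h1 m n h), h2, 1, fun c σ hσ h => ?_⟩
  have z : ∀ m, σ m 0 = 0 := fun m => tendsto_nhds_unique
    (((ContinuousMap.evalCLM ℝ (0 : unitInterval)).continuous.tendsto _).comp (hσ m))
    (tendsto_const_nhds.congr fun K => by
      simp only [Function.comp, map_sum, map_smul]
      refine (Finset.sum_eq_zero fun N _ => smul_eq_zero_of_right _ (Finset.sum_eq_zero fun n _ => ?_)).symm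
      rcases h3 n with h | h
      · exact smul_eq_zero_of_right _ h
      · rw [← e, h, zero_div, zero_smul])
  have := tendsto_nhds_unique (((ContinuousMap.evalCLM ℝ (0 : unitInterval)).continuous.tendsto _).comp h)
    (tendsto_const_nhds.congr fun m => (z m).symm)
  simp at this

end Pool.Agent.Results.MP_ae49d3_an.No
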